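import Pool.Agent.Helper60.LZ.St

/-!
# Project LZ (MP_5e9b96_nt), module BAD
-/

set_option autoImplicit false

namespace Pool.Agent.Helper43.LZ

open Finset Pool.Agent.Helper60.LZ

private lemma idx {t : ℕ} (ht : 4 ≤ t) :
    3 * 2 ^ Nat.log 2 ((t - 1) / 3) < t ∧ t ≤ 2 * (3 * 2 ^ Nat.log 2 ((t - 1) / 3)) := by
  have h0 : (t - 1) / 3 ≠ 0 := by omega
  have h1 := Nat.pow_log_le_self 2 h0
  have h2 := Nat.lt_pow_succ_log_self (b := 2) one_lt_two ((t - 1) / 3)
  rw [pow_succ] at h2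
  omega

private lemma cover (K : ℕ) (f : ℕ → ℝ) (hf : ∀ t, 0 ≤ f t) :
    ∑ t ∈ Icc 4 K, f t ≤
      ∑ i ∈ range (Nat.log 2 (K / 3) + 1), ∑ t ∈ Ioc (3 * 2 ^ i) (2 * (3 * 2 ^ i)), f t := by
  have h : ∀ t ∈ Icc 4 K, Nat.log 2 ((t - 1) / 3) ∈ range (Nat.log 2 (K / 3) + 1) := by
    intro t ht
    rw [mem_Icc] at ht
    rw [mem_range]
    exact Nat.lt_succ_of_le (Nat.log_mono_right (Nat.div_le_div_right (by omega)))
  rw [← sum_fiberwise_of_maps_to h]
  refine sum_le_sum fun i _ => ?_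
  refine sum_le_sum_of_subset_of_nonneg ?_ fun t _ _ => hf t
  intro t ht
  rw [mem_filter, mem_Icc] at ht
  obtain ⟨⟨h4, _⟩, rfl⟩ := ht
  rw [mem_Ioc]
  exact idx h4

private lemma harm (j0 : ℕ) (h0 : 2 ≤ j0) (J : ℕ) (hJ : j0 ≤ J) :
    ∑ j ∈ Ico j0 J, (1 : ℝ) / j ≤ Real.log ((J : ℝ) - 1) := by
  induction J, hJ using Nat.le_induction with
  | base =>
    rw [Ico_self, sum_empty]
    have : (2 : ℝ) ≤ j0 := by exact_mod_cast h0
    exact Real.log_nonneg (by linarith)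
  | succ J hJ ih =>
    rw [sum_Ico_succ_top hJ]
    have hJ2 : (2 : ℝ) ≤ J := by exact_mod_cast h0.trans hJ
    have h1 : (0 : ℝ) < ((J : ℝ) - 1) / J := div_pos (by linarith) (by linarith)
    have h2 := Real.log_le_sub_one_of_pos h1
    rw [Real.log_div (by linarith) (by linarith)] at h2
    have h3 : ((J : ℝ) - 1) / J - 1 = -(1 / J) := by
      have : (J : ℝ) ≠ 0 := by linarith
      field_simp
      ring
    rw [h3] at h2
    push_cast
    have h4 : ((J : ℝ) + 1 - 1) = J := by ring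
    rw [h4]
    linarith

open Classical in
theorem hBAD (hM : StMSQ) : StBAD := by
  obtain ⟨C, hC, hM⟩ := hM
  refine ⟨3 * C, by positivity, ?_⟩
  intro K j0 J hK hj0 hJ
  -- sizes
  have hj16 : 16 ≤ j0 := by
    by_contra h
    push Not at h
    have h1 : (2 : ℕ) ^ j0 < 2 ^ 16 := Nat.pow_lt_pow_right one_lt_two h
    have h2 : 256 * 4 ^ 4 ≤ 256 * K ^ 4 := Nat.mul_le_mul_left _ (Nat.pow_le_pow_left hK 4)
    have h3 : (256 * 4 ^ 4 : ℕ) = 2 ^ 16 := by norm_num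
    omega
  have hJ16 : (16 : ℝ) ≤ J := by exact_mod_cast hj16.trans hJ
  have hlJ : 0 ≤ Real.log J := Real.log_nonneg (by linarith)
  have hK4 : (4 : ℝ) ≤ K := by exact_mod_cast hK
  have hlog2 : (1 : ℝ) / 2 < Real.log 2 := by
    have := Real.log_two_gt_d9
    linarith
  have hlK1 : 1 ≤ Real.log K := by
    have h1 : Real.log 4 ≤ Real.log K := Real.log_le_log (by norm_num) hK4
    have h2 : Real.log 4 = 2 * Real.log 2 := by
      rw [show (4 : ℝ) = 2 ^ 2 by norm_num, Real.log_pow]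
      push_cast
      ring
    linarith
  have hN : ((Nat.log 2 (K / 3) + 1 : ℕ) : ℝ) ≤ 3 * Real.log K := by
    have h0 : K / 3 ≠ 0 := by omega
    have h1 : 2 ^ Nat.log 2 (K / 3) ≤ K := (Nat.pow_log_le_self 2 h0).trans (Nat.div_le_self _ _)
    have h2 : (2 : ℝ) ^ Nat.log 2 (K / 3) ≤ K := by exact_mod_cast h1
    have h3 := Real.log_le_log (by positivity) h2
    rw [Real.log_pow] at h3
    have h4 : (Nat.log 2 (K / 3) : ℝ) * (1 / 2) ≤ (Nat.log 2 (K / 3) : ℝ) * Real.log 2 :=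
      mul_le_mul_of_nonneg_left hlog2.le (Nat.cast_nonneg _)
    push_cast
    linarith
  -- the mean squares
  have hsq : ∀ j, j0 ≤ j → ∑ t ∈ Icc 4 K, bl t j ^ 2 ≤ 3 * Real.log K * (C / j) := by
    intro j hj
    have hjp : (0 : ℝ) < j := by
      have : 0 < j := by omega
      exact_mod_cast this
    refine (cover K (fun t => bl t j ^ 2) fun t => sq_nonneg _).trans ?_
    have h1 : ∀ i ∈ range (Nat.log 2 (K / 3) + 1),
        ∑ t ∈ Ioc (3 * 2 ^ i) (2 * (3 * 2 ^ i)), bl t j ^ 2 ≤ C / j := by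
      intro i hi
      rw [mem_range] at hi
      have h0 : K / 3 ≠ 0 := by omega
      have h2 : 2 ^ i ≤ K / 3 :=
        (Nat.pow_le_pow_right two_pos (Nat.le_of_lt_succ hi)).trans (Nat.pow_log_le_self 2 h0)
      have h3 : 3 * 2 ^ i ≤ K := by omega
      have h5 : 1 ≤ 2 ^ i := Nat.one_le_two_pow
      refine hM (3 * 2 ^ i) j (by omega) ?_
      calc 256 * (3 * 2 ^ i) ^ 4 ≤ 256 * K ^ 4 :=
            Nat.mul_le_mul_left _ (Nat.pow_le_pow_left h3 4)
        _ ≤ 2 ^ j0 := hj0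
        _ ≤ 2 ^ j := Nat.pow_le_pow_right two_pos hj
    refine (sum_le_sum h1).trans ?_
    rw [sum_const, card_range, nsmul_eq_mul]
    exact mul_le_mul_of_nonneg_right hN (by positivity)
  -- Cauchy
  have hcs : ∀ t, (∑ j ∈ Ico j0 J, |bl t j|) ^ 2 ≤
      Real.log J * ∑ j ∈ Ico j0 J, (j : ℝ) * bl t j ^ 2 := by
    intro t
    have h1 : (∑ j ∈ Ico j0 J, |bl t j|) ^ 2 ≤
        (∑ j ∈ Ico j0 J, (1 : ℝ) / j) * ∑ j ∈ Ico j0 J, (j : ℝ) * bl t j ^ 2 := by
      refine sum_sq_le_sum_mul_sum_of_sq_eq_mul _ (fun j _ => by positivity)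
        (fun j _ => by positivity) fun j hj => ?_
      rw [mem_Ico] at hj
      have : (j : ℝ) ≠ 0 := by
        have : j ≠ 0 := by omega
        exact_mod_cast this
      rw [sq_abs]
      field_simp
    refine h1.trans (mul_le_mul_of_nonneg_right ?_ (sum_nonneg fun j _ => by positivity))
    refine (harm j0 (by omega) J hJ).trans ?_
    exact Real.log_le_log (by linarith) (by linarith)
  have hcard : (((Icc 4 K).filter (fun t => 1 < ∑ j ∈ Ico j0 J, |bl t j|)).card : ℝ) ≤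
      ∑ t ∈ Icc 4 K, (∑ j ∈ Ico j0 J, |bl t j|) ^ 2 := by
    rw [card_eq_sum_ones]
    push_cast
    calc ∑ t ∈ (Icc 4 K).filter (fun t => 1 < ∑ j ∈ Ico j0 J, |bl t j|), (1 : ℝ)
        ≤ ∑ t ∈ (Icc 4 K).filter (fun t => 1 < ∑ j ∈ Ico j0 J, |bl t j|),
          (∑ j ∈ Ico j0 J, |bl t j|) ^ 2 := by
          refine sum_le_sum fun t ht => ?_
          rw [mem_filter] at ht
          have := ht.2
          nlinarith
      _ ≤ _ := sum_le_sum_of_subset_of_nonneg (filter_subset _ _) fun t _ _ => sq_nonneg _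
  refine hcard.trans ?_
  refine (sum_le_sum fun t _ => hcs t).trans ?_
  rw [← mul_sum, sum_comm]
  have h6 : ∑ j ∈ Ico j0 J, ∑ t ∈ Icc 4 K, (j : ℝ) * bl t j ^ 2 ≤
      ∑ j ∈ Ico j0 J, 3 * Real.log K * C := by
    refine sum_le_sum fun j hj => ?_
    rw [mem_Ico] at hj
    have hjp : (0 : ℝ) < j := by
      have : 0 < j := by omega
      exact_mod_cast this
    rw [← mul_sum]
    have := mul_le_mul_of_nonneg_left (hsq j hj.1) hjp.le
    refine this.trans (le_of_eq ?_)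
    field_simp
  rw [sum_const, Nat.card_Ico, nsmul_eq_mul] at h6
  have h7 : ((J - j0 : ℕ) : ℝ) ≤ J := by exact_mod_cast Nat.sub_le _ _
  have h8 : ((J - j0 : ℕ) : ℝ) * (3 * Real.log K * C) ≤ J * (3 * Real.log K * C) :=
    mul_le_mul_of_nonneg_right h7 (by positivity)
  have h9 := mul_le_mul_of_nonneg_left (h6.trans h8) hlJ
  refine h9.trans (le_of_eq ?_)
  ring

end Pool.Agent.Helper43.LZ
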